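import Pool.Agent.W778.UI.A
import Pool.Agent.H353R2.An2

/-!
Counting the zeros of functions of the class, and summability.
-/

set_option autoImplicit false

namespace Pool.Agent.Helper146_UI

open Set Filter Topology Metric
open Pool.Agent.W778.UI

theorem rho_le_norm (z : ℂ) : rho z ≤ 3 * ‖z‖ := by
  unfold rho
  have h1 := Complex.abs_im_le_norm z
  have h2 : Real.log (1 + ‖z‖ ^ 2) ≤ 2 * ‖z‖ := by
    rw [Real.log_le_iff_le_exp (by positivity)]
    have h3 : 1 + ‖z‖ ≤ Real.exp ‖z‖ := by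
      have := Real.add_one_le_exp ‖z‖
      linarith
    calc 1 + ‖z‖ ^ 2 ≤ (1 + ‖z‖) ^ 2 := by nlinarith [norm_nonneg z]
      _ ≤ (Real.exp ‖z‖) ^ 2 := by gcongr
      _ = Real.exp (2 * ‖z‖) := by rw [← Real.exp_nat_mul]; norm_num
  linarith

theorem count (F : ℂ → ℂ) (hF : Differentiable ℂ F) (A B : ℝ) (hA : 0 < A) (hB : 0 < B)
    (hb : ∀ z, ‖F z‖ ≤ A * Real.exp (B * rho z)) (z0 : ℂ) (hz0 : F z0 ≠ 0) (a : ℕ → ℂ)
    (hinj : Function.Injective a) (hzero : ∀ n, F (a n) = 0) :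
    ∃ C > (0:ℝ), ∀ R : ℝ, 0 ≤ R → ∀ T : Finset ℕ, (∀ n ∈ T, ‖a n‖ ≤ R) →
      (T.card : ℝ) ≤ C * (1 + R) := by
  classical
  have hl2 : 0 < Real.log 2 := Real.log_pos (by norm_num)
  have hF0 : 0 < ‖F z0‖ := norm_pos_iff.2 hz0
  set D := |Real.log (A / ‖F z0‖)| + 3 * B * (3 * ‖z0‖ + 2) + 6 * B with hD
  have hDpos : 0 < D := by have := norm_nonneg z0; positivity
  refine ⟨D / Real.log 2, by positivity, fun R hR T hT => ?_⟩
  set R' := R + ‖z0‖ + 1 with hR'
  have hR'0 : 0 < R' := by have := norm_nonneg z0; positivity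
  have hM : ∀ v ∈ sphere z0 (2 * R'), ‖F v‖ ≤ A * Real.exp (3 * B * (‖z0‖ + 2 * R')) := by
    intro v hv
    refine (hb v).trans ?_
    have h1 : ‖v‖ ≤ ‖z0‖ + 2 * R' := by
      have h2 : ‖v - z0‖ = 2 * R' := by simpa [dist_eq_norm] using hv
      have h3 := norm_sub_norm_le v z0
      linarith
    have h4 := rho_le_norm v
    have h5 : B * rho v ≤ 3 * B * (‖z0‖ + 2 * R') := by
      calc B * rho v ≤ B * (3 * ‖v‖) := by gcongr
        _ ≤ B * (3 * (‖z0‖ + 2 * R')) := by gcongr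
        _ = _ := by ring
    gcongr
  have hcb := H353.count_bound univ isOpen_univ F hF.differentiableOn z0 R' (2 * R') _ hR'0
    (by linarith) (subset_univ _) hM (T.image a) (fun _ => 1) (by
      intro ρ hρ
      rw [Finset.mem_image] at hρ
      obtain ⟨n, hn, rfl⟩ := hρ
      rw [mem_closedBall, dist_eq_norm]
      have := hT n hn
      have h2 := norm_sub_le (a n) z0
      linarith) (by
      intro ρ hρ
      rw [Finset.mem_image] at hρ
      obtain ⟨n, hn, rfl⟩ := hρ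
      have han : AnalyticAt ℂ F (a n) := hF.analyticAt (a n)
      have : analyticOrderAt F (a n) ≠ 0 := by
        rw [han.analyticOrderAt_ne_zero]
        exact hzero n
      exact_mod_cast Order.one_le_iff_ne_zero.2 this)
  have hdiv : 2 * R' / R' = 2 := by field_simp
  rw [hdiv, Finset.sum_const, smul_eq_mul, mul_one, Finset.card_image_of_injective _ hinj] at hcb
  have h1 : (2:ℝ) ^ T.card ≤ A / ‖F z0‖ * Real.exp (3 * B * (‖z0‖ + 2 * R')) := by
    rw [div_mul_eq_mul_div, le_div_iff₀ hF0]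
    linarith
  have h2 := Real.log_le_log (by positivity) h1
  rw [Real.log_pow, Real.log_mul (by positivity) (Real.exp_pos _).ne', Real.log_exp] at h2
  have h3 := le_abs_self (Real.log (A / ‖F z0‖))
  have h4 : (T.card : ℝ) * Real.log 2 ≤ D * (1 + R) := by
    have h5 : 0 ≤ |Real.log (A / ‖F z0‖)| := abs_nonneg _
    have h6 := norm_nonneg z0
    have h7 : 0 ≤ |Real.log (A / ‖F z0‖)| * R := by positivity
    have h8 : 0 ≤ 3 * B * (3 * ‖z0‖ + 2) * R := by positivity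
    rw [hD]
    calc (T.card : ℝ) * Real.log 2 ≤ |Real.log (A / ‖F z0‖)| + 3 * B * (‖z0‖ + 2 * R') := by linarith
      _ ≤ _ := by
        rw [hR']
        nlinarith
  rw [div_mul_eq_mul_div, le_div_iff₀ hl2]
  exact h4

theorem summ (a : ℕ → ℂ) (C : ℝ) (hC : 0 < C) (hcount : ∀ R : ℝ, 0 ≤ R → ∀ T : Finset ℕ,
    (∀ n ∈ T, ‖a n‖ ≤ R) → (T.card : ℝ) ≤ C * (1 + R)) :
    Summable (fun n => ((1 + ‖a n‖) ^ 3)⁻¹) := by
  classical
  have hs : Summable (fun k : ℕ => C * (1 + (k + 1 : ℝ)) * ((1 + (k : ℝ)) ^ 3)⁻¹) := by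
    have h1 : Summable (fun k : ℕ => 2 * C * (1 / ((k + 1 : ℕ) : ℝ) ^ 2)) :=
      ((summable_nat_add_iff 1).2 (Real.summable_one_div_nat_pow.2 (by norm_num))).mul_left _
    refine Summable.of_nonneg_of_le (fun k => by positivity) (fun k => ?_) h1
    have h2 : (0:ℝ) ≤ k := Nat.cast_nonneg k
    rw [← div_eq_mul_inv, mul_one_div, div_le_div_iff₀ (by positivity) (by positivity)]
    push_cast
    have h3 : (1 + ((k:ℝ) + 1)) ≤ 2 * (1 + k) := by linarith
    have h4 : 0 ≤ C * ((k:ℝ) + 1) ^ 2 := by positivity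
    calc C * (1 + ((k:ℝ) + 1)) * ((k:ℝ) + 1) ^ 2 = (C * ((k:ℝ) + 1) ^ 2) * (1 + ((k:ℝ) + 1)) := by ring
      _ ≤ (C * ((k:ℝ) + 1) ^ 2) * (2 * (1 + k)) := by gcongr
      _ = 2 * C * (1 + (k:ℝ)) ^ 3 := by ring
  refine summable_of_sum_le (c := ∑' k : ℕ, C * (1 + (k + 1 : ℝ)) * ((1 + (k : ℝ)) ^ 3)⁻¹)
    (fun n => by positivity) (fun T => ?_)
  have h1 : ∀ n, ((1 + ‖a n‖) ^ 3)⁻¹ ≤ ((1 + (⌊‖a n‖⌋₊ : ℝ)) ^ 3)⁻¹ := by
    intro n
    have := Nat.floor_le (norm_nonneg (a n))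
    gcongr
  calc ∑ n ∈ T, ((1 + ‖a n‖) ^ 3)⁻¹ ≤ ∑ n ∈ T, ((1 + (⌊‖a n‖⌋₊ : ℝ)) ^ 3)⁻¹ :=
        Finset.sum_le_sum fun n _ => h1 n
    _ = ∑ k ∈ T.image (fun n => ⌊‖a n‖⌋₊), (T.filter (fun n => ⌊‖a n‖⌋₊ = k)).card •
        ((1 + (k : ℝ)) ^ 3)⁻¹ :=
        Finset.sum_comp (fun k : ℕ => ((1 + (k : ℝ)) ^ 3)⁻¹) (fun n => ⌊‖a n‖⌋₊)
    _ ≤ ∑ k ∈ T.image (fun n => ⌊‖a n‖⌋₊), C * (1 + (k + 1 : ℝ)) * ((1 + (k : ℝ)) ^ 3)⁻¹ := by
        refine Finset.sum_le_sum fun k _ => ?_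
        rw [nsmul_eq_mul]
        refine mul_le_mul_of_nonneg_right ?_ (by positivity)
        refine hcount (k + 1) (by positivity) _ fun n hn => ?_
        have h2 := (Finset.mem_filter.1 hn).2
        have h3 := Nat.lt_floor_add_one ‖a n‖
        rw [h2] at h3
        exact h3.le
    _ ≤ _ := hs.sum_le_tsum _ fun k _ => by positivity

/-- iterated derivatives of `(z - a) g` -/
theorem iteratedDeriv_lin_mul (g : ℂ → ℂ) (hg : Differentiable ℂ g) (a : ℂ) (k : ℕ) :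
    iteratedDeriv k (fun z => (z - a) * g z) =
      fun z => (z - a) * iteratedDeriv k g z + k * iteratedDeriv (k - 1) g z := by
  induction k with
  | zero => funext z; simp [iteratedDeriv_zero]
  | succ k ih =>
    have hd : ∀ j, Differentiable ℂ (iteratedDeriv j g) := by
      intro j
      have : ContDiff ℂ (j + 1 : ℕ) g := hg.contDiff
      exact this.differentiable_iteratedDeriv j (by exact_mod_cast Nat.lt_succ_self j)
    rw [iteratedDeriv_succ, ih]
    funext z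
    have h1 : HasDerivAt (fun z => (z - a) * iteratedDeriv k g z)
        (1 * iteratedDeriv k g z + (z - a) * iteratedDeriv (k + 1) g z) z := by
      have h2 : HasDerivAt (iteratedDeriv k g) (iteratedDeriv (k + 1) g z) z := by
        rw [iteratedDeriv_succ]
        exact (hd k z).hasDerivAt
      exact ((hasDerivAt_id z).sub_const a).mul h2
    have h3 : HasDerivAt (fun z => (k:ℂ) * iteratedDeriv (k - 1) g z)
        ((k:ℂ) * iteratedDeriv k g z) z := by
      rcases Nat.eq_zero_or_pos k with rfl | hk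
      · simpa using hasDerivAt_const z (0:ℂ)
      · have h2 : HasDerivAt (iteratedDeriv (k - 1) g) (iteratedDeriv k g z) z := by
          have h4 : iteratedDeriv k g = deriv (iteratedDeriv (k - 1) g) := by
            rw [← iteratedDeriv_succ]; congr 1; omega
          rw [h4]
          exact (hd (k - 1) z).hasDerivAt
        exact h2.const_mul _
    rw [(h1.fun_add h3).deriv]
    push_cast
    ring

end Pool.Agent.Helper146_UI
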