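import Pool.Agent.W778.UI.A

/-!
Uniform solution of the interpolation problem for unit data, by Baire category and Montel.
-/

set_option autoImplicit false

namespace Pool.Agent.Helper146_UI

open Set Filter Topology Metric
open Pool.Agent.W778.UI
open scoped ENNReal

/-- the class `E` -/
def IsE (f : ℂ → ℂ) : Prop :=
  Differentiable ℂ f ∧ ∃ A > (0:ℝ), ∃ B > (0:ℝ), ∀ z : ℂ, ‖f z‖ ≤ A * Real.exp (B * rho z)

/-- **Uniform interpolation.** -/
theorem unif_interp (a : ℕ → ℂ) (p : ℕ → ℕ)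
    (hint : ∀ lam : ℕ → ℕ → ℂ,
      (∃ A > (0:ℝ), ∃ B > (0:ℝ), ∀ n, ∀ κ < p n, ‖lam n κ‖ ≤ A * Real.exp (B * rho (a n))) →
      ∃ g : ℂ → ℂ, IsE g ∧ ∀ n, ∀ κ < p n, iteratedDeriv κ g (a n) / (κ.factorial : ℂ) = lam n κ) :
    ∃ K : ℝ, 0 < K ∧ ∃ r : ℝ, 0 < r ∧ ∀ n, ∀ k < p n, ∃ g : ℂ → ℂ, Differentiable ℂ g ∧
      (∀ z, ‖g z‖ ≤ K * Real.exp (K * rho z)) ∧
      ∀ m, ∀ κ < p m, iteratedDeriv κ g (a m) / (κ.factorial : ℂ) =
        if m = n ∧ κ = k then (r : ℂ) else 0 := by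
  classical
  let ι := Σ n : ℕ, Fin (p n)
  let Y := lp (fun _ : ι => ℂ) ∞
  let A : ℕ → Set Y := fun k => {y | ∃ g : ℂ → ℂ, Differentiable ℂ g ∧
    (∀ z, ‖g z‖ ≤ k * Real.exp (k * rho z)) ∧
    ∀ i : ι, iteratedDeriv i.2 g (a i.1) / ((i.2 : ℕ).factorial : ℂ) = y i}
  have hcl : ∀ k, IsClosed (A k) := by
    intro k
    refine IsSeqClosed.isClosed ?_
    intro y y0 hy hy0
    choose g hgd hgb hgi using hy
    have hB : Continuous (fun z : ℂ => (k : ℝ) * Real.exp (k * rho z)) := by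
      have := continuous_rho
      fun_prop
    obtain ⟨Φ, hΦd, hΦb, hΦ⟩ := montel_entire g hgd _ hB hgb (hyperfilter ℕ)
    refine ⟨Φ, hΦd, hΦb, fun i => ?_⟩
    have h1 : Tendsto (fun j => iteratedDeriv i.2 (g j) (a i.1) / ((i.2 : ℕ).factorial : ℂ))
        (hyperfilter ℕ : Filter ℕ) (𝓝 (iteratedDeriv i.2 Φ (a i.1) / ((i.2 : ℕ).factorial : ℂ))) :=
      (tendsto_iteratedDeriv hgd hΦ i.2 (a i.1)).div_const _
    have h2 : Tendsto (fun j => (y j) i) (hyperfilter ℕ : Filter ℕ) (𝓝 (y0 i)) := by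
      have h3 : Tendsto y (hyperfilter ℕ : Filter ℕ) (𝓝 y0) :=
        hy0.mono_left (by rw [← Nat.cofinite_eq_atTop]; exact hyperfilter_le_cofinite)
      have h4 : Tendsto (fun j => ‖y j - y0‖) (hyperfilter ℕ : Filter ℕ) (𝓝 0) :=
        tendsto_iff_norm_sub_tendsto_zero.1 h3
      rw [tendsto_iff_norm_sub_tendsto_zero]
      refine squeeze_zero (fun _ => norm_nonneg _) (fun j => ?_) h4
      have := lp.norm_apply_le_norm (p := ∞) (by simp) (y j - y0) i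
      simpa using this
    simp only [hgi] at h1
    exact tendsto_nhds_unique h1 h2
  have hun : ⋃ k, A k = univ := by
    refine eq_univ_of_forall fun y => ?_
    obtain ⟨g, ⟨hgd, A', hA', B', hB', hb⟩, hg⟩ := hint
      (fun n κ => if h : κ < p n then y ⟨n, ⟨κ, h⟩⟩ else 0)
      ⟨‖y‖ + 1, by positivity, 1, one_pos, fun n κ hκ => by
        simp only [hκ, dif_pos]
        have h1 := lp.norm_apply_le_norm (p := ∞) (by simp) y ⟨n, ⟨κ, hκ⟩⟩
        have h2 : (1:ℝ) ≤ Real.exp (1 * rho (a n)) := Real.one_le_exp (by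
          rw [one_mul]; exact rho_nonneg _)
        nlinarith [norm_nonneg y]⟩
    obtain ⟨k, hk⟩ := exists_nat_ge (max A' B')
    rw [mem_iUnion]
    refine ⟨k, g, hgd, fun z => (hb z).trans ?_, fun i => ?_⟩
    · have h1 : A' ≤ k := (le_max_left _ _).trans hk
      have h2 : B' ≤ k := (le_max_right _ _).trans hk
      have := rho_nonneg z
      gcongr
    · have := hg i.1 i.2 i.2.2
      simpa using this
  obtain ⟨k, y0, hy0⟩ := nonempty_interior_of_iUnion_of_closed hcl hun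
  rw [mem_interior_iff_mem_nhds, Metric.mem_nhds_iff] at hy0
  obtain ⟨r, hr, hball⟩ := hy0
  refine ⟨2 * k + 1, by positivity, r / 2, by positivity, fun n κ0 hκ0 => ?_⟩
  let i0 : ι := ⟨n, ⟨κ0, hκ0⟩⟩
  let u : Y := lp.single ∞ i0 (((r / 2 : ℝ) : ℂ))
  have hu : ‖u‖ = r / 2 := by
    rw [lp.norm_single (by simp)]
    rw [Complex.norm_real, Real.norm_of_nonneg (by positivity)]
  obtain ⟨g1, hg1d, hg1b, hg1i⟩ := hball (mem_ball_self hr)
  obtain ⟨g2, hg2d, hg2b, hg2i⟩ := hball (show y0 + u ∈ ball y0 r by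
    rw [mem_ball, dist_eq_norm, add_sub_cancel_left, hu]; linarith)
  refine ⟨fun z => g2 z - g1 z, hg2d.sub hg1d, fun z => ?_, fun m κ hκ => ?_⟩
  · calc ‖g2 z - g1 z‖ ≤ ‖g2 z‖ + ‖g1 z‖ := norm_sub_le _ _
      _ ≤ k * Real.exp (k * rho z) + k * Real.exp (k * rho z) := add_le_add (hg2b z) (hg1b z)
      _ = 2 * k * Real.exp (k * rho z) := by ring
      _ ≤ (2 * k + 1) * Real.exp ((2 * k + 1) * rho z) := by
        have h1 := rho_nonneg z
        have h2 : (0:ℝ) ≤ k := Nat.cast_nonneg k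
        gcongr
        · linarith
        · linarith
  · have h1 := hg1i ⟨m, ⟨κ, hκ⟩⟩
    have h2 := hg2i ⟨m, ⟨κ, hκ⟩⟩
    simp only at h1 h2
    have hd : iteratedDeriv κ (fun z => g2 z - g1 z) (a m) =
        iteratedDeriv κ g2 (a m) - iteratedDeriv κ g1 (a m) := by
      have h3 := iteratedDeriv_fun_sub (n := κ) (x := a m) (f := g2) (g := g1)
        (hg2d.contDiff.contDiffAt) (hg1d.contDiff.contDiffAt)
      exact h3
    rw [hd, sub_div, h1, h2]
    have h4 : (y0 + u : Y) ⟨m, ⟨κ, hκ⟩⟩ = y0 ⟨m, ⟨κ, hκ⟩⟩ + u ⟨m, ⟨κ, hκ⟩⟩ := rfl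
    rw [h4, add_sub_cancel_left]
    by_cases hc : m = n ∧ κ = κ0
    · obtain ⟨rfl, rfl⟩ := hc
      simp only [and_self, if_true]
      exact lp.single_apply_self ∞ i0 _
    · rw [if_neg hc]
      refine lp.single_apply_ne ∞ i0 _ ?_
      intro h
      apply hc
      have h5 : m = n := congrArg Sigma.fst h
      subst h5
      refine ⟨rfl, ?_⟩
      have h6 := eq_of_heq (Sigma.mk.inj h).2
      exact congrArg Fin.val h6

end Pool.Agent.Helper146_UI
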