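import Pool.Agent.Helper146_UI.Plank
import Pool.Agent.Helper146_UI.Unif
import Pool.Agent.Helper146_UI.Count

/-!
The construction of a function with prescribed zeros and lower bounds for the first nonvanishing
Taylor coefficients.
-/

set_option autoImplicit false

namespace Pool.Agent.Helper146_UI

open Set Filter Topology Metric
open Pool.Agent.W778.UI

theorem main (a : ℕ → ℂ) (p : ℕ → ℕ) (hinj : Function.Injective a) (hp : ∀ n, 1 ≤ p n)
    (hF : ∃ F : ℂ → ℂ, IsE F ∧ (∃ z, F z ≠ 0) ∧ ∀ n, ∀ k < p n, iteratedDeriv k F (a n) = 0)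
    (hint : ∀ lam : ℕ → ℕ → ℂ,
      (∃ A > (0:ℝ), ∃ B > (0:ℝ), ∀ n, ∀ κ < p n, ‖lam n κ‖ ≤ A * Real.exp (B * rho (a n))) →
      ∃ g : ℂ → ℂ, IsE g ∧ ∀ n, ∀ κ < p n, iteratedDeriv κ g (a n) / (κ.factorial : ℂ) = lam n κ) :
    ∃ f : ℂ → ℂ, IsE f ∧ (∃ z, f z ≠ 0) ∧
      (∀ n, ∀ k < p n, iteratedDeriv k f (a n) = 0) ∧
      ∃ ε > (0:ℝ), ∃ c > (0:ℝ), ∀ n,
        ε * Real.exp (-(c * rho (a n))) ≤
          ‖iteratedDeriv (p n) f (a n)‖ / ((p n).factorial : ℝ) := by
  classical
  -- counting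
  obtain ⟨F, ⟨hFd, A0, hA0, B0, hB0, hFb⟩, ⟨z0, hz0⟩, hFz⟩ := hF
  obtain ⟨C, hC, hcount⟩ := count F hFd A0 B0 hA0 hB0 hFb z0 hz0 a hinj (fun n => by
    have := hFz n 0 (hp n)
    simpa [iteratedDeriv_zero] using this)
  have hS := summ a C hC hcount
  set σ := ∑' n, ((1 + ‖a n‖) ^ 3)⁻¹ with hσ
  have hσ0 : 0 ≤ σ := tsum_nonneg fun n => by positivity
  -- uniform interpolation
  obtain ⟨K, hK, r, hr, hg⟩ := unif_interp a p hint
  have hg' := fun n => hg n (p n - 1) (by have := hp n; omega)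
  choose g hgd hgb hgi using hg'
  have hgz : ∀ n m κ, κ < p m → ¬ (m = n ∧ κ = p n - 1) → iteratedDeriv κ (g n) (a m) = 0 := by
    intro n m κ hκ hne
    have h1 := hgi n m κ hκ
    rw [if_neg hne, div_eq_zero_iff] at h1
    rcases h1 with h1 | h1
    · exact h1
    · exact absurd h1 (by exact_mod_cast Nat.factorial_ne_zero κ)
  set h : ℕ → ℂ → ℂ := fun n z => (z - a n) * g n z with hh
  have hhd : ∀ n, Differentiable ℂ (h n) := fun n =>
    (differentiable_id.sub_const (a n)).mul (hgd n)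
  have hhb : ∀ n z, ‖h n z‖ ≤ (1 + ‖a n‖) * (2 * K * Real.exp ((K + 1) * rho z)) := by
    intro n z
    have h1 : ‖z - a n‖ ≤ (1 + ‖a n‖) * (1 + ‖z‖) := by
      have := norm_sub_le z (a n)
      nlinarith [norm_nonneg z, norm_nonneg (a n)]
    have h2 := one_add_norm_le z
    calc ‖h n z‖ = ‖z - a n‖ * ‖g n z‖ := norm_mul _ _
      _ ≤ ((1 + ‖a n‖) * (1 + ‖z‖)) * (K * Real.exp (K * rho z)) := by
        have := hgb n z
        have := norm_nonneg (g n z)
        gcongr
      _ ≤ ((1 + ‖a n‖) * (2 * Real.exp (rho z))) * (K * Real.exp (K * rho z)) := by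
        gcongr
      _ = (1 + ‖a n‖) * (2 * K * Real.exp ((K + 1) * rho z)) := by
        have : Real.exp ((K + 1) * rho z) = Real.exp (K * rho z) * Real.exp (rho z) := by
          rw [← Real.exp_add]; congr 1; ring
        rw [this]; ring
  have hh0 : ∀ n m κ, κ < p m → iteratedDeriv κ (h n) (a m) = 0 := by
    intro n m κ hκ
    rw [hh]
    simp only
    rw [iteratedDeriv_lin_mul (g n) (hgd n)]
    simp only
    by_cases hmn : m = n
    · subst hmn
      rw [sub_self, zero_mul, zero_add]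
      rcases Nat.eq_zero_or_pos κ with rfl | hκ0
      · simp
      · rw [hgz m m (κ - 1) (by omega) (by omega), mul_zero]
    · rw [hgz n m κ hκ (fun hc => hmn hc.1), mul_zero, zero_add]
      rw [hgz n m (κ - 1) (by omega) (fun hc => hmn hc.1), mul_zero]
  have hhp : ∀ m, iteratedDeriv (p m) (h m) (a m) = (p m).factorial * (r : ℂ) := by
    intro m
    rw [hh]
    simp only
    rw [iteratedDeriv_lin_mul (g m) (hgd m)]
    simp only
    rw [sub_self, zero_mul, zero_add]
    have h1 := hgi m m (p m - 1) (by have := hp m; omega)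
    rw [if_pos ⟨rfl, rfl⟩, div_eq_iff (by exact_mod_cast Nat.factorial_ne_zero _)] at h1
    rw [h1]
    have h2 : ((p m).factorial : ℂ) = (p m : ℂ) * ((p m - 1).factorial : ℂ) := by
      have := Nat.mul_factorial_pred (n := p m) (by have := hp m; omega)
      exact_mod_cast this.symm
    rw [h2]; ring
  -- the matrix
  set c : ℕ → ℕ → ℂ := fun m n => iteratedDeriv (p m) (h n) (a m) / ((p m).factorial : ℂ) with hc
  set s : ℕ → ℝ := fun n => ((1 + ‖a n‖) ^ 4)⁻¹ with hs
  have hs0 : ∀ n, 0 < s n := fun n => by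
    have := norm_nonneg (a n)
    rw [hs]; positivity
  have hs1 : ∀ n, s n * (1 + ‖a n‖) = ((1 + ‖a n‖) ^ 3)⁻¹ := by
    intro n
    have := norm_nonneg (a n)
    rw [hs]; field_simp
  have hcm : ∀ m, ‖c m m‖ = r := by
    intro m
    have h1 : ((p m).factorial : ℂ) ≠ 0 := by exact_mod_cast Nat.factorial_ne_zero _
    rw [hc]
    simp only
    rw [hhp m, mul_div_cancel_left₀ _ h1, Complex.norm_real, Real.norm_of_nonneg hr.le]
  -- Cauchy estimate for the rows
  have hcb : ∀ m, ∃ Cm : ℝ, 0 ≤ Cm ∧ ∀ n, ‖c m n‖ ≤ Cm * (1 + ‖a n‖) := by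
    intro m
    obtain ⟨M, hM⟩ := (isCompact_sphere (a m) 1).bddAbove_image
      (f := fun z => 2 * K * Real.exp ((K + 1) * rho z)) (by
        have := continuous_rho
        fun_prop)
    have hM' : ∀ z ∈ sphere (a m) 1, 2 * K * Real.exp ((K + 1) * rho z) ≤ M := fun z hz =>
      hM ⟨z, hz, rfl⟩
    have hM0 : 0 ≤ M := by
      have h1 : (a m + 1) ∈ sphere (a m) 1 := by simp
      refine le_trans ?_ (hM' _ h1)
      positivity
    refine ⟨M, hM0, fun n => ?_⟩
    have h1 := Complex.norm_iteratedDeriv_le_of_forall_mem_sphere_norm_le (p m) one_pos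
      (f := h n) (c := a m) (C := M * (1 + ‖a n‖)) (hhd n).diffContOnCl (fun z hz => by
        refine (hhb n z).trans ?_
        rw [mul_comm M]
        have := hM' z hz
        have := norm_nonneg (a n)
        gcongr)
    rw [one_pow, div_one] at h1
    have h2 : (0:ℝ) < (p m).factorial := by exact_mod_cast Nat.factorial_pos _
    rw [hc]
    simp only
    rw [norm_div, Complex.norm_natCast, div_le_iff₀ h2]
    linarith
  have hcs : ∀ m, Summable (fun n => s n * ‖c m n‖) := by
    intro m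
    obtain ⟨Cm, hCm, hb⟩ := hcb m
    refine Summable.of_nonneg_of_le (fun n => mul_nonneg (hs0 n).le (norm_nonneg _)) (fun n => ?_)
      (hS.mul_left Cm)
    calc s n * ‖c m n‖ ≤ s n * (Cm * (1 + ‖a n‖)) := by
          have := hs0 n; have := hb n; gcongr
      _ = Cm * (s n * (1 + ‖a n‖)) := by ring
      _ = _ := by rw [hs1]
  -- selection
  set θ : ℝ := r / (4 * (σ + 1)) with hθ
  have hθ0 : 0 < θ := by positivity
  set δ : ℕ → ℝ := fun m => θ * (s m * ((1 + ‖a m‖) ^ 3)⁻¹) with hδ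
  have hδ0 : ∀ m, 0 ≤ δ m := fun m => by
    have := hs0 m; have := norm_nonneg (a m)
    rw [hδ]; positivity
  have hδs : ∀ m, 2 * δ m / (r * s m) = (2 * (σ + 1))⁻¹ * ((1 + ‖a m‖) ^ 3)⁻¹ := by
    intro m
    have h1 := (hs0 m).ne'
    have h2 : 1 + ‖a m‖ ≠ 0 := by have := norm_nonneg (a m); positivity
    have h3 : σ + 1 ≠ 0 := by positivity
    rw [hδ, hθ]
    simp only
    field_simp
    ring
  obtain ⟨e, he, hsel⟩ := infinite_sel c s hs0 r hr (fun m => (hcm m).ge) δ hδ0
    (by simp only [hδs]; exact hS.mul_left _)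
    (by
      simp only [hδs]
      rw [tsum_mul_left, ← hσ, inv_mul_lt_iff₀ (by positivity)]
      linarith) hcs
  -- the function
  have hterm : ∀ n z, ‖(e n : ℂ) * h n z‖ ≤
      ((1 + ‖a n‖) ^ 3)⁻¹ * (2 * K * Real.exp ((K + 1) * rho z)) := by
    intro n z
    rw [norm_mul, Complex.norm_real, Real.norm_of_nonneg (he n).1]
    calc e n * ‖h n z‖ ≤ s n * ((1 + ‖a n‖) * (2 * K * Real.exp ((K + 1) * rho z))) := by
          have := (he n).2; have := hhb n z; have := (hs0 n).le
          gcongr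
      _ = s n * (1 + ‖a n‖) * (2 * K * Real.exp ((K + 1) * rho z)) := by ring
      _ = _ := by rw [hs1]
  set f : ℂ → ℂ := fun z => ∑' n, (e n : ℂ) * h n z with hf
  set P : ℕ → ℂ → ℂ := fun N z => ∑ n ∈ Finset.range N, (e n : ℂ) * h n z with hP
  have hPd : ∀ N, Differentiable ℂ (P N) := by
    intro N
    rw [hP]
    exact Differentiable.fun_sum fun n _ => (hhd n).const_mul _
  have htl : TendstoLocallyUniformlyOn P f atTop univ := by
    rw [tendstoLocallyUniformlyOn_iff_forall_isCompact isOpen_univ]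
    intro Kc _ hKc
    obtain ⟨M, hM⟩ := hKc.bddAbove_image (f := fun z => 2 * K * Real.exp ((K + 1) * rho z)) (by
        have := continuous_rho
        fun_prop)
    refine tendstoUniformlyOn_tsum_nat (u := fun n => ((1 + ‖a n‖) ^ 3)⁻¹ * M) (hS.mul_right M)
      (fun n z hz => (hterm n z).trans ?_)
    have h1 : 2 * K * Real.exp ((K + 1) * rho z) ≤ M := hM ⟨z, hz, rfl⟩
    have := norm_nonneg (a n)
    gcongr
  have hfd : Differentiable ℂ f := by
    rw [← differentiableOn_univ]
    exact htl.differentiableOn (Eventually.of_forall fun N => (hPd N).differentiableOn) isOpen_univ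
  have hder : ∀ k m, Tendsto (fun N => iteratedDeriv k (P N) (a m)) atTop
      (𝓝 (iteratedDeriv k f (a m))) := fun k m => tendsto_iteratedDeriv hPd htl k (a m)
  have hPder : ∀ k N z, iteratedDeriv k (P N) z =
      ∑ n ∈ Finset.range N, (e n : ℂ) * iteratedDeriv k (h n) z := by
    intro k N z
    have h1 : iteratedDeriv k (fun z => ∑ n ∈ Finset.range N, (e n : ℂ) * h n z) z =
        ∑ n ∈ Finset.range N, iteratedDeriv k (fun z => (e n : ℂ) * h n z) z :=
      iteratedDeriv_fun_sum (fun n _ => ((hhd n).const_mul _).contDiff.contDiffAt)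
    rw [hP]
    simp only
    rw [h1]
    refine Finset.sum_congr rfl fun n _ => ?_
    exact iteratedDeriv_const_mul_field _ _
  have hfz : ∀ m, ∀ k < p m, iteratedDeriv k f (a m) = 0 := by
    intro m k hk
    refine tendsto_nhds_unique (hder k m) ?_
    have : (fun N => iteratedDeriv k (P N) (a m)) = fun _ => 0 := by
      funext N
      rw [hPder]
      refine Finset.sum_eq_zero fun n _ => ?_
      rw [hh0 n m k hk, mul_zero]
    rw [this]
    exact tendsto_const_nhds
  have hfp : ∀ m, iteratedDeriv (p m) f (a m) / ((p m).factorial : ℂ) =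
      ∑' n, (e n : ℂ) * c m n := by
    intro m
    refine tendsto_nhds_unique ((hder (p m) m).div_const _) ?_
    have h1 : Summable (fun n => (e n : ℂ) * c m n) := by
      refine Summable.of_norm_bounded (hcs m) fun n => ?_
      rw [norm_mul, Complex.norm_real, Real.norm_of_nonneg (he n).1]
      exact mul_le_mul_of_nonneg_right (he n).2 (norm_nonneg _)
    refine (h1.hasSum.tendsto_sum_nat).congr fun N => ?_
    rw [hPder, Finset.sum_div]
    refine Finset.sum_congr rfl fun n _ => ?_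
    rw [hc]; ring
  have hlow : ∀ m, δ m ≤ ‖iteratedDeriv (p m) f (a m)‖ / ((p m).factorial : ℝ) := by
    intro m
    have h1 := hsel m
    rw [← hfp m, norm_div, Complex.norm_natCast] at h1
    exact h1
  have hδp : ∀ m, 0 < δ m := fun m => by
    have := hs0 m; have := norm_nonneg (a m)
    rw [hδ]; positivity
  refine ⟨f, ⟨hfd, 2 * K * (σ + 1), by positivity, K + 1, by positivity, fun z => ?_⟩, ?_, hfz, ?_⟩
  · have h1 : Summable (fun n => ((1 + ‖a n‖) ^ 3)⁻¹ * (2 * K * Real.exp ((K + 1) * rho z))) :=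
      hS.mul_right _
    have h2 := tsum_of_norm_bounded h1.hasSum (fun n => hterm n z)
    rw [tsum_mul_right, ← hσ] at h2
    refine h2.trans ?_
    have h3 : 0 ≤ 2 * K * Real.exp ((K + 1) * rho z) := by positivity
    calc σ * (2 * K * Real.exp ((K + 1) * rho z)) ≤ (σ + 1) * (2 * K * Real.exp ((K + 1) * rho z)) := by
          gcongr; linarith
      _ = _ := by ring
  · by_contra hcon
    push Not at hcon
    have h1 : f = fun _ => 0 := funext hcon
    have h2 := hlow 0
    rw [h1] at h2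
    have h3 : iteratedDeriv (p 0) (fun _ : ℂ => (0:ℂ)) (a 0) = 0 := by
      rw [iteratedDeriv_fun_const_zero]
    rw [h3, norm_zero, zero_div] at h2
    exact absurd h2 (not_le.2 (hδp 0))
  · refine ⟨θ * ((2:ℝ) ^ 7)⁻¹, by positivity, 7, by norm_num, fun m => le_trans ?_ (hlow m)⟩
    have h1 := one_add_norm_le (a m)
    have h0 := norm_nonneg (a m)
    have h2 : δ m = θ * ((1 + ‖a m‖) ^ 7)⁻¹ := by
      rw [hδ, hs]
      simp only
      field_simp
    rw [h2, mul_assoc]
    refine mul_le_mul_of_nonneg_left ?_ hθ0.le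
    have h3 : (1 + ‖a m‖) ^ 7 ≤ (2 * Real.exp (rho (a m))) ^ 7 := by gcongr
    have h4 : ((2 * Real.exp (rho (a m))) ^ 7)⁻¹ = ((2:ℝ) ^ 7)⁻¹ * Real.exp (-(7 * rho (a m))) := by
      rw [mul_pow, mul_inv, Real.exp_neg, ← Real.exp_nat_mul]
      norm_num
    rw [← h4]
    gcongr

end Pool.Agent.Helper146_UI
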