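import Mathlib

/-!
A finite and an infinite selection lemma: given a matrix with diagonal entries bounded below, one can
choose coefficients in prescribed intervals so that no row sum is too small.
-/

set_option autoImplicit false

namespace Pool.Agent.Helper146_UI

open Finset Filter Topology

/-- A set of naturals of diameter at most `q` has at most `q + 1` elements. -/
theorem card_le_of_diam (T : Finset ℕ) (q : ℝ) (hq : 0 ≤ q)
    (h : ∀ i ∈ T, ∀ j ∈ T, ((j : ℝ) - i) ≤ q) : (T.card : ℝ) ≤ q + 1 := by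
  rcases T.eq_empty_or_nonempty with rfl | hT
  · simp; linarith
  · have h1 : T ⊆ Finset.Icc (T.min' hT) (T.max' hT) := fun x hx =>
      Finset.mem_Icc.2 ⟨T.min'_le x hx, T.le_max' x hx⟩
    have h2 := Finset.card_le_card h1
    rw [Nat.card_Icc] at h2
    have h3 : T.min' hT ≤ T.max' hT := T.min'_le _ (T.max'_mem hT)
    have h4 := h _ (T.min'_mem hT) _ (T.max'_mem hT)
    have h5 : ((T.max' hT + 1 - T.min' hT : ℕ) : ℝ) = (T.max' hT : ℝ) + 1 - T.min' hT := by
      rw [Nat.cast_sub (by omega)]; push_cast; ring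
    have h6 : (T.card : ℝ) ≤ ((T.max' hT + 1 - T.min' hT : ℕ) : ℝ) := by exact_mod_cast h2
    rw [h5] at h6
    linarith

/-- counting the choices which make row `m` small -/
theorem card_bad (N M : ℕ) (hM : 0 < M) (c : Fin N → Fin N → ℂ) (s : Fin N → ℝ) (hs : ∀ n, 0 < s n)
    (r : ℝ) (hr : 0 < r) (hc : ∀ m, r ≤ ‖c m m‖) (δ : ℝ) (hδ : 0 ≤ δ) (m : Fin N) :
    (((Finset.univ : Finset (Fin N → Fin M)).filter
      (fun x => ‖∑ n, (((x n : ℕ) : ℝ) * s n / M : ℝ) * c m n‖ < δ)).card : ℝ) ≤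
      (2 * δ * M / (r * s m) + 1) * (M : ℝ) ^ (N - 1) := by
  classical
  have : NeZero M := ⟨hM.ne'⟩
  set S := (Finset.univ : Finset (Fin N → Fin M)).filter
      (fun x => ‖∑ n, (((x n : ℕ) : ℝ) * s n / M : ℝ) * c m n‖ < δ) with hS
  set φ : (Fin N → Fin M) → (Fin N → Fin M) := fun x => Function.update x m 0 with hφ
  have hM' : (0:ℝ) < M := by exact_mod_cast hM
  set q : ℝ := 2 * δ * M / (r * s m) with hq
  have hq0 : 0 ≤ q := by have := hs m; positivity
  -- fibres
  have hfib : ∀ y ∈ S.image φ, (S.filter (fun x => φ x = y)).card ≤ ⌊q + 1⌋₊ := by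
    intro y _
    have hinj : Set.InjOn (fun x : Fin N → Fin M => ((x m : ℕ))) (S.filter (fun x => φ x = y) : Set _) := by
      intro x hx x' hx' hxx
      simp only [Finset.coe_filter, Set.mem_ofPred_eq] at hx hx'
      funext n
      by_cases hn : n = m
      · subst hn; exact Fin.ext hxx
      · have := congrFun (hx.2.trans hx'.2.symm) n
        simpa [hφ, Function.update_of_ne hn] using this
    rw [← Finset.card_image_of_injOn hinj]
    rw [Nat.le_floor_iff (by linarith)]
    refine card_le_of_diam _ q hq0 ?_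
    intro i hi j hj
    rw [Finset.mem_image] at hi hj
    obtain ⟨x, hx, rfl⟩ := hi
    obtain ⟨x', hx', rfl⟩ := hj
    rw [Finset.mem_filter] at hx hx'
    have hb := (Finset.mem_filter.1 hx.1).2
    have hb' := (Finset.mem_filter.1 hx'.1).2
    have hdiff : (∑ n, (((x' n : ℕ) : ℝ) * s n / M : ℝ) * c m n) -
        (∑ n, (((x n : ℕ) : ℝ) * s n / M : ℝ) * c m n) =
        (((((x' m : ℕ) : ℝ) - (x m : ℕ)) * s m / M : ℝ) : ℂ) * c m m := by
      rw [← Finset.sum_sub_distrib]
      rw [Finset.sum_eq_single m]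
      · push_cast; ring
      · intro n _ hn
        have := congrFun (hx.2.trans hx'.2.symm) n
        have hxn : x n = x' n := by simpa [hφ, Function.update_of_ne hn] using this
        rw [hxn]; ring
      · intro h; exact absurd (Finset.mem_univ m) h
    have hlt : ‖(((((x' m : ℕ) : ℝ) - (x m : ℕ)) * s m / M : ℝ) : ℂ) * c m m‖ < 2 * δ := by
      rw [← hdiff]
      calc _ ≤ _ := norm_sub_le _ _
        _ < 2 * δ := by linarith
    rw [norm_mul, Complex.norm_real, Real.norm_eq_abs] at hlt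
    by_contra hcon
    push Not at hcon
    have hpos : 0 < (((x' m : ℕ) : ℝ) - (x m : ℕ)) := lt_of_le_of_lt hq0 hcon
    have hsm := hs m
    rw [abs_of_pos (by positivity)] at hlt
    have h1 : q * s m / M * r = 2 * δ := by
      rw [hq]; field_simp
    have h2 : q * s m / M * r ≤ (((x' m : ℕ) : ℝ) - (x m : ℕ)) * s m / M * ‖c m m‖ := by
      have := hc m
      gcongr
    linarith
  have h1 := Finset.card_le_mul_card_image (f := φ) S _ hfib
  -- the image
  have himg : (S.image φ).card ≤ M ^ (N - 1) := by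
    have hsub : S.image φ ⊆ Fintype.piFinset (fun n : Fin N => if n = m then ({0} : Finset (Fin M))
        else Finset.univ) := by
      intro y hy
      rw [Finset.mem_image] at hy
      obtain ⟨x, _, rfl⟩ := hy
      rw [Fintype.mem_piFinset]
      intro n
      by_cases hn : n = m
      · subst hn; simp [hφ]
      · simp [hn]
    refine (Finset.card_le_card hsub).trans ?_
    rw [Fintype.card_piFinset]
    have : ∀ n : Fin N, (if n = m then ({0} : Finset (Fin M)) else Finset.univ).card =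
        if n = m then 1 else M := by
      intro n; by_cases hn : n = m <;> simp [hn]
    rw [Finset.prod_congr rfl (fun n _ => this n), Finset.prod_ite]
    simp only [Finset.prod_const_one, one_mul, Finset.prod_const]
    have : (Finset.univ.filter (fun n : Fin N => ¬ n = m)).card = N - 1 := by
      rw [Finset.filter_not, Finset.filter_eq']
      simp [Finset.card_sdiff]
    rw [this]
  calc (S.card : ℝ) ≤ (⌊q + 1⌋₊ * (S.image φ).card : ℕ) := by exact_mod_cast h1
    _ = (⌊q + 1⌋₊ : ℝ) * ((S.image φ).card : ℝ) := by push_cast; ring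
    _ ≤ (q + 1) * (M : ℝ) ^ (N - 1) := by
      have h2 : (⌊q + 1⌋₊ : ℝ) ≤ q + 1 := Nat.floor_le (by linarith)
      have h3 : ((S.image φ).card : ℝ) ≤ (M : ℝ) ^ (N - 1) := by exact_mod_cast himg
      gcongr

/-- finite selection lemma -/
theorem finite_sel (N : ℕ) (c : Fin N → Fin N → ℂ) (s : Fin N → ℝ) (hs : ∀ n, 0 < s n)
    (r : ℝ) (hr : 0 < r) (hc : ∀ m, r ≤ ‖c m m‖) (δ : Fin N → ℝ) (hδ : ∀ m, 0 ≤ δ m)
    (hsum : ∑ m, 2 * δ m / (r * s m) < 1) :
    ∃ e : Fin N → ℝ, (∀ n, 0 ≤ e n ∧ e n ≤ s n) ∧ ∀ m, δ m ≤ ‖∑ n, (e n : ℂ) * c m n‖ := by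
  classical
  rcases Nat.eq_zero_or_pos N with rfl | hN
  · exact ⟨fun _ => 0, fun n => n.elim0, fun m => m.elim0⟩
  -- choose M large
  set σ := ∑ m, 2 * δ m / (r * s m) with hσ
  obtain ⟨M, hM⟩ := exists_nat_gt ((N : ℝ) / (1 - σ))
  have hσ1 : 0 < 1 - σ := by linarith
  have hNpos : (0:ℝ) < N := by exact_mod_cast hN
  have hMr : (0:ℝ) < M := lt_trans (by positivity) hM
  have hMp : 0 < M := by exact_mod_cast hMr
  have : NeZero M := ⟨hMp.ne'⟩
  by_contra hcon
  push Not at hcon
  -- every grid point is bad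
  have hcov : (Finset.univ : Finset (Fin N → Fin M)) ⊆ Finset.univ.biUnion (fun m : Fin N =>
      (Finset.univ : Finset (Fin N → Fin M)).filter
      (fun x => ‖∑ n, (((x n : ℕ) : ℝ) * s n / M : ℝ) * c m n‖ < δ m)) := by
    intro x _
    obtain ⟨m, hm⟩ := hcon (fun n => ((x n : ℕ) : ℝ) * s n / M) (fun n => by
      have h1 := hs n
      have h2 : ((x n : ℕ) : ℝ) ≤ M := by exact_mod_cast (x n).2.le
      refine ⟨by positivity, ?_⟩
      rw [div_le_iff₀ hMr]
      nlinarith)
    rw [Finset.mem_biUnion]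
    exact ⟨m, Finset.mem_univ _, Finset.mem_filter.2 ⟨Finset.mem_univ _, hm⟩⟩
  have hcard := (Finset.card_le_card hcov).trans Finset.card_biUnion_le
  rw [Finset.card_univ, Fintype.card_fun, Fintype.card_fin, Fintype.card_fin] at hcard
  have hcard' : ((M : ℝ) ^ N) ≤ ∑ m : Fin N, (2 * δ m * M / (r * s m) + 1) * (M : ℝ) ^ (N - 1) := by
    calc ((M : ℝ) ^ N) = ((M ^ N : ℕ) : ℝ) := by push_cast; ring
      _ ≤ ((∑ m : Fin N, ((Finset.univ : Finset (Fin N → Fin M)).filter
      (fun x => ‖∑ n, (((x n : ℕ) : ℝ) * s n / M : ℝ) * c m n‖ < δ m)).card : ℕ) : ℝ) := by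
          exact_mod_cast hcard
      _ ≤ _ := by
          rw [Nat.cast_sum]
          exact Finset.sum_le_sum fun m _ => card_bad N M hMp c s hs r hr hc (δ m) (hδ m) m
  rw [← Finset.sum_mul] at hcard'
  have hpow : (M : ℝ) ^ N = M * (M : ℝ) ^ (N - 1) := by
    rw [← pow_succ']; congr 1; omega
  rw [hpow] at hcard'
  have h5 := le_of_mul_le_mul_right hcard' (by positivity)
  rw [Finset.sum_add_distrib] at h5
  simp only [Finset.sum_const, Finset.card_univ, Fintype.card_fin, nsmul_eq_mul, mul_one] at h5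
  have h6 : ∑ m : Fin N, 2 * δ m * M / (r * s m) = σ * M := by
    rw [hσ, Finset.sum_mul]
    refine Finset.sum_congr rfl fun m _ => by ring
  rw [h6] at h5
  rw [div_lt_iff₀ hσ1] at hM
  nlinarith

/-- infinite selection lemma -/
theorem infinite_sel (c : ℕ → ℕ → ℂ) (s : ℕ → ℝ) (hs : ∀ n, 0 < s n)
    (r : ℝ) (hr : 0 < r) (hc : ∀ m, r ≤ ‖c m m‖) (δ : ℕ → ℝ) (hδ : ∀ m, 0 ≤ δ m)
    (hsm : Summable (fun m => 2 * δ m / (r * s m))) (hsum : ∑' m, 2 * δ m / (r * s m) < 1)
    (hcs : ∀ m, Summable (fun n => s n * ‖c m n‖)) :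
    ∃ e : ℕ → ℝ, (∀ n, 0 ≤ e n ∧ e n ≤ s n) ∧ ∀ m, δ m ≤ ‖∑' n, (e n : ℂ) * c m n‖ := by
  set Q : Set (ℕ → ℝ) := Set.univ.pi (fun n => Set.Icc 0 (s n)) with hQ
  have hQc : IsCompact Q := isCompact_univ_pi fun n => isCompact_Icc
  have hcont : ∀ m, ContinuousOn (fun e : ℕ → ℝ => ∑' n, (e n : ℂ) * c m n) Q := by
    intro m
    refine continuousOn_tsum (u := fun n => s n * ‖c m n‖) (fun n => ?_) (hcs m) (fun n e he => ?_)
    · exact ((Complex.continuous_ofReal.comp (continuous_apply n)).mul continuous_const).continuousOn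
    · rw [norm_mul, Complex.norm_real, Real.norm_eq_abs]
      have h1 := he n (Set.mem_univ n)
      rw [abs_of_nonneg h1.1]
      exact mul_le_mul_of_nonneg_right h1.2 (norm_nonneg _)
  set t : ℕ → Set (ℕ → ℝ) := fun N => {e | e ∈ Q ∧ ∀ m < N, δ m ≤ ‖∑' n, (e n : ℂ) * c m n‖} with ht
  have hcl : ∀ N, IsClosed (t N) := by
    intro N
    have : t N = Q ∩ ⋂ m ∈ Finset.range N, (Q ∩ (fun e : ℕ → ℝ => ∑' n, (e n : ℂ) * c m n) ⁻¹'
        {w : ℂ | δ m ≤ ‖w‖}) := by
      ext e
      simp only [ht, Set.mem_ofPred_eq, Set.mem_inter_iff, Set.mem_iInter, Finset.mem_range,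
        Set.mem_preimage]
      constructor
      · rintro ⟨h1, h2⟩
        exact ⟨h1, fun m hm => ⟨h1, h2 m hm⟩⟩
      · rintro ⟨h1, h2⟩
        exact ⟨h1, fun m hm => (h2 m hm).2⟩
    rw [this]
    refine hQc.isClosed.inter (isClosed_biInter fun m _ => ?_)
    exact (hcont m).preimage_isClosed_of_isClosed hQc.isClosed
      (isClosed_le continuous_const continuous_norm)
  have hne : ∀ N, (t N).Nonempty := by
    intro N
    obtain ⟨e, he, hb⟩ := finite_sel N (fun i j => c i j) (fun i => s i) (fun n => hs n) r hr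
      (fun m => hc m) (fun i => δ i) (fun m => hδ m) (by
        refine lt_of_le_of_lt ?_ hsum
        rw [Fin.sum_univ_eq_sum_range (fun m => 2 * δ m / (r * s m)) N]
        refine hsm.sum_le_tsum _ fun m _ => ?_
        have := hs m; have := hδ m
        positivity)
    refine ⟨fun n => if h : n < N then e ⟨n, h⟩ else 0, ?_, ?_⟩
    · intro n _
      by_cases h : n < N
      · simp only [h, dif_pos]; exact he ⟨n, h⟩
      · simp only [h, dif_neg, not_false_eq_true]; exact ⟨le_refl _, (hs n).le⟩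
    · intro m hm
      have h1 := hb ⟨m, hm⟩
      have h2 : ∑' n, (((if h : n < N then e ⟨n, h⟩ else 0 : ℝ)) : ℂ) * c m n =
          ∑ n : Fin N, (e n : ℂ) * c m n := by
        rw [tsum_eq_sum (s := Finset.range N)]
        · rw [← Fin.sum_univ_eq_sum_range (fun n => (((if h : n < N then e ⟨n, h⟩ else 0 : ℝ)) : ℂ) * c m n)]
          refine Finset.sum_congr rfl fun n _ => ?_
          simp
        · intro n hn
          rw [Finset.mem_range] at hn
          simp [hn]
      rw [h2]
      exact h1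
  obtain ⟨e, he⟩ := IsCompact.nonempty_iInter_of_sequence_nonempty_isCompact_isClosed t
    (fun N e he => ⟨he.1, fun m hm => he.2 m (hm.trans (Nat.lt_succ_self N))⟩) hne
    (hQc.of_isClosed_subset (hcl 0) fun e he => he.1) hcl
  rw [Set.mem_iInter] at he
  exact ⟨e, fun n => (he 0).1 n (Set.mem_univ n), fun m => (he (m + 1)).2 m (Nat.lt_succ_self m)⟩

end Pool.Agent.Helper146_UI
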